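import Pool.Agent.Lib.MP_4fbe7c_an.ND.Base
import Mathlib.Analysis.Calculus.ParametricIntegral

/-! Project ND, module DIF (helper14): differentiation under the integral sign. -/

set_option autoImplicit false

open Set MeasureTheory Filter Topology

namespace Pool.Agent.Lib.MP_4fbe7c_an.ND.H14

open Pool.Agent.Lib.MP_4fbe7c_an.ND

/-- Module DIF: differentiation under the integral sign. -/
theorem dif_st : DifStatement := by
  intro p Ω q φ φ' hΩ hφ hφ' hd t ht
  have hc : ∀ {ψ : ℝ → Eu p → ℝ},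
      ContinuousOn (fun a : ℝ × Eu p => ψ a.1 a.2) (Ioi 0 ×ˢ closure Ω) →
      ∀ s, 0 < s → ContinuousOn (ψ s) (closure Ω) := by
    intro ψ hψ s hs
    have h1 : Continuous (fun x : Eu p => (s, x)) := by fun_prop
    exact hψ.comp h1.continuousOn (fun x hx => ⟨hs, hx⟩)
  have hb : ContinuousOn (fun a : ℝ × Eu p => φ' a.1 a.2)
      (Icc (t / 2) (2 * t) ×ˢ closure Ω) :=
    hφ'.mono fun a ha => ⟨lt_of_lt_of_le (by linarith) ha.1.1, ha.2⟩
  obtain ⟨C, hC0, hC⟩ := hΩ.exists_bound₂ hb
  have hs : Ioo (t / 2) (2 * t) ∈ 𝓝 t := Ioo_mem_nhds (by linarith) (by linarith)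
  refine (hasDerivAt_integral_of_dominated_loc_of_deriv_le (F := φ) (F' := φ')
    (bound := fun _ => C) hs ?_ ?_ ?_ ?_ ?_ ?_).2
  · filter_upwards [hs] with s hs1
    have : 0 < s := by
      have := hs1.1
      linarith
    exact (hΩ.integrableOn (hc hφ s this)).aestronglyMeasurable
  · exact hΩ.integrableOn (hc hφ t ht)
  · exact (hΩ.integrableOn (hc hφ' t ht)).aestronglyMeasurable
  · filter_upwards [ae_restrict_mem hΩ.measurableSet] with x hx
    intro s hs1
    exact hC s ⟨hs1.1.le, hs1.2.le⟩ x (subset_closure hx)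
  · exact hΩ.integrableOn continuousOn_const
  · filter_upwards [ae_restrict_mem hΩ.measurableSet] with x hx
    intro s hs1
    have : 0 < s := by
      have := hs1.1
      linarith
    exact hd s this x hx

end Pool.Agent.Lib.MP_4fbe7c_an.ND.H14
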